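import Mathlib

set_option autoImplicit false

namespace Pool.Agent.Results.MP_b5758b_co.No

open Finset

/-- number of nonnegative `k`-sums -/
noncomputable def s {n : ℕ} (k : ℕ) (x : Fin n → ℝ) : ℕ :=
  ((univ.powersetCard k).filter (fun S : Finset (Fin n) => 0 ≤ ∑ i ∈ S, x i)).card

/-- the integers `N` such that the bound holds for all `n ≥ N` -/
def good (k : ℕ) : Set ℕ :=
  {N | ∀ n, N ≤ n → ∀ x : Fin n → ℝ, 0 ≤ ∑ i, x i → (n - 1).choose (k - 1) ≤ s k x}

noncomputable def t {n : ℕ} (x : Fin n → ℝ) (A : Finset (Fin n)) : ℕ :=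
  ((A.powersetCard 2).filter (fun S : Finset (Fin n) => 0 ≤ ∑ i ∈ S, x i)).card

lemma star {n : ℕ} (x : Fin n → ℝ) (A B D : Finset (Fin n)) (a : Fin n) (ha : a ∈ A)
    (hB : B ⊆ A.erase a) (hD : D ⊆ A.erase a) (h : ∀ j ∈ D, 0 ≤ x a + x j) :
    t x B + D.card ≤ t x A := by
  have hinj : Set.InjOn (fun j => ({a, j} : Finset (Fin n))) D := by
    intro i hi j hj hij
    have hi' := (mem_erase.1 (hD hi)).1
    have : i ∈ ({a, j} : Finset (Fin n)) := by
      have e : ({a, i} : Finset (Fin n)) = {a, j} := hij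
      rw [← e]; simp
    simpa [hi'] using this
  rw [← card_image_of_injOn hinj, t, t, ← card_union_of_disjoint]
  · apply card_le_card
    intro S hS
    rcases mem_union.1 hS with hS | hS
    · rw [mem_filter, mem_powersetCard] at hS ⊢
      exact ⟨⟨hS.1.1.trans (hB.trans (erase_subset _ _)), hS.1.2⟩, hS.2⟩
    · obtain ⟨j, hj, rfl⟩ := mem_image.1 hS
      have hj' := mem_erase.1 (hD hj)
      rw [mem_filter, mem_powersetCard, sum_pair hj'.1.symm, card_pair hj'.1.symm]
      refine ⟨⟨?_, rfl⟩, h j hj⟩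
      intro i hi
      rcases mem_insert.1 hi with rfl | hi
      · exact ha
      · rw [mem_singleton.1 hi]; exact hj'.2
  · rw [disjoint_left]
    intro S hS hS'
    obtain ⟨j, -, rfl⟩ := mem_image.1 hS'
    have := hB ((mem_powersetCard.1 (mem_filter.1 hS).1).1 (mem_insert_self a {j}))
    simp at this

lemma step {n : ℕ} (x : Fin n → ℝ) (A : Finset (Fin n)) (m : ℕ) (hA : A.card = m + 2)
    (h0 : 0 ≤ ∑ i ∈ A, x i) :
    m + 1 ≤ t x A ∨ ∃ (B : Finset (Fin n)) (d : ℕ), B.card = m ∧ 0 ≤ ∑ i ∈ B, x i ∧ 1 ≤ d ∧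
      t x B ≤ d.choose 2 ∧ t x B + d ≤ t x A := by
  obtain ⟨a, ha, hmax⟩ := exists_max_image A x (card_pos.1 (by omega))
  have hc : (A.erase a).card = m + 1 := by rw [card_erase_of_mem ha]; omega
  obtain ⟨z, hz, hmin⟩ := exists_min_image (A.erase a) x (card_pos.1 (by omega))
  by_cases hz0 : 0 ≤ x a + x z
  · left
    have := star x A ∅ (A.erase a) a ha (empty_subset _) subset_rfl
      (fun j hj => by linarith [hmin j hj])
    omega
  · right
    set B := (A.erase a).erase z with hBdef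
    have hsum : 0 < ∑ i ∈ B, x i := by
      have e1 := add_sum_erase A x ha
      have e2 := add_sum_erase (A.erase a) x hz
      linarith [not_le.1 hz0]
    have hBA : ∀ j ∈ B, j ∈ A := fun j hj => mem_of_mem_erase (mem_of_mem_erase hj)
    refine ⟨B, (B.filter (fun j => 0 ≤ x a + x j)).card, ?_, hsum.le, ?_, ?_, ?_⟩
    · rw [hBdef, card_erase_of_mem hz]; omega
    · obtain ⟨b, hb, hb0⟩ : ∃ b ∈ B, 0 < x b := by
        by_contra hcon
        push Not at hcon
        exact absurd (sum_nonpos hcon) (not_le.2 hsum)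
      exact card_pos.2 ⟨b, mem_filter.2 ⟨hb, by linarith [hmax b (hBA b hb)]⟩⟩
    · rw [← card_powersetCard]
      apply card_le_card
      intro S hS
      rw [mem_filter, mem_powersetCard] at hS
      obtain ⟨⟨h1, h2⟩, h3⟩ := hS
      obtain ⟨b, c, hbc, rfl⟩ := card_eq_two.1 h2
      rw [sum_pair hbc] at h3
      have hb : b ∈ B := h1 (by simp)
      have hc : c ∈ B := h1 (by simp)
      refine mem_powersetCard.2 ⟨?_, h2⟩
      intro i hi
      rcases mem_insert.1 hi with rfl | hi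
      · exact mem_filter.2 ⟨hb, by linarith [hmax c (hBA c hc)]⟩
      · rw [mem_singleton.1 hi]
        exact mem_filter.2 ⟨hc, by linarith [hmax b (hBA b hb)]⟩
    · exact star x A B _ a ha (erase_subset _ _) ((filter_subset _ _).trans (erase_subset _ _))
        (fun j hj => (mem_filter.1 hj).2)

lemma bound {n : ℕ} (x : Fin n → ℝ) (m : ℕ) : ∀ A : Finset (Fin n), A.card = m →
    0 ≤ ∑ i ∈ A, x i → (if m = 3 ∨ m = 5 then m - 2 else m - 1) ≤ t x A := by
  induction m using Nat.strong_induction_on with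
  | _ m ih =>
    intro A hA h0
    rcases Nat.lt_or_ge m 2 with hm | hm
    · split_ifs <;> omega
    obtain ⟨m, rfl⟩ : ∃ k, m = k + 2 := ⟨m - 2, by omega⟩
    rcases step x A m hA h0 with h | ⟨B, d, hB, hB0, hd, h1, h2⟩
    · split_ifs <;> omega
    · have h3 := ih m (by omega) B hB hB0
      have h4 : d = 1 → t x B = 0 := by rintro rfl; simpa using h1
      have h5 : d = 2 → t x B ≤ 1 := by rintro rfl; simpa using h1
      split_ifs at h3 ⊢ <;> omega

lemma s_int {n : ℕ} (y : Fin n → ℤ) : s 2 (fun i => (y i : ℝ)) =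
    ((univ.powersetCard 2).filter (fun S : Finset (Fin n) => 0 ≤ ∑ i ∈ S, y i)).card := by
  unfold s
  congr 1
  apply filter_congr
  intro S _
  rw [← Int.cast_sum, Int.cast_nonneg_iff]

theorem result : IsLeast (good 2) 6 ∧
    ∃ x : Fin 7 → ℝ, 0 ≤ ∑ i, x i ∧ Antitone x ∧ s 2 x = (7 - 1).choose (2 - 1) ∧
      x 0 + x 6 < 0 := by
  refine ⟨⟨?_, ?_⟩, fun i => ((![3, 3, 3, 3, -4, -4, -4] : Fin 7 → ℤ) i : ℝ), ?_, ?_, ?_, ?_⟩
  · intro n hn x hx
    have := bound x n univ (by simp) hx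
    rw [if_neg (by omega)] at this
    simpa [s, t] using this
  · intro N hN
    by_contra hlt
    have := hN 5 (by omega) (fun i => ((![2, 2, 2, -3, -3] : Fin 5 → ℤ) i : ℝ))
      (by rw [← Int.cast_sum, Int.cast_nonneg_iff]; decide)
    rw [s_int] at this
    revert this
    decide
  · rw [← Int.cast_sum, Int.cast_nonneg_iff]; decide
  · intro i j hij
    have : ∀ i j : Fin 7, i ≤ j → (![3, 3, 3, 3, -4, -4, -4] : Fin 7 → ℤ) j ≤
        (![3, 3, 3, 3, -4, -4, -4] : Fin 7 → ℤ) i := by decide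
    exact Int.cast_le.2 (this i j hij)
  · rw [s_int]; decide
  · show ((3 : ℤ) : ℝ) + ((-4 : ℤ) : ℝ) < 0
    norm_num

end Pool.Agent.Results.MP_b5758b_co.No
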